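import Mathlib

/-!
# MP_86beeb_co : the classes of `(-1,1,t)`-threshold graphs, `t > 1`, are pairwise distinct

We show that for `s, t > 1`, `t ≠ 3`, the inclusion `C t ⊆ C s` forces `s = t`.
-/

namespace Pool.Agent.Results.MP_86beeb_co.AllDistinct

/-- `G` is `(θ₁,…,θ_k)`-threshold: there are ranks with `vw` an edge iff the number of indices
`i` with `θ_i ≤ r_v + r_w` is odd. -/
def IsMultithreshold {k : ℕ} (θ : Fin k → ℝ) {V : Type*} (G : SimpleGraph V) : Prop :=
  ∃ r : V → ℝ, ∀ v w, v ≠ w →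
    (G.Adj v w ↔ Odd (Finset.univ.filter fun i => θ i ≤ r v + r w).card)

/-- The class `C_t` of all finite `(-1,1,t)`-threshold graphs (on vertex sets `Fin n`). -/
def C (t : ℝ) : Set (Σ n : ℕ, SimpleGraph (Fin n)) :=
  {G | IsMultithreshold ![-1, 1, t] G.2}

/-- The window `[-1,1) ∪ [t,∞)` in an ordered field. -/
def Win {K : Type*} [Field K] [LinearOrder K] (t d : K) : Prop :=
  (-1 ≤ d ∧ d < 1) ∨ t ≤ d

/-- The open window `(-1,1) ∪ (t,∞)` in an ordered field. -/
def In {K : Type*} [Field K] [LinearOrder K] (t d : K) : Prop :=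
  (-1 < d ∧ d < 1) ∨ t < d

/-- The complementary open window `(-∞,-1) ∪ (1,t)` in an ordered field. -/
def Out {K : Type*} [Field K] [LinearOrder K] (t d : K) : Prop :=
  d < -1 ∨ (1 < d ∧ d < t)

section Abstract

variable {K : Type*} [Field K] [LinearOrder K] [IsStrictOrderedRing K]
variable {t : ℝ} {s : K} {f g : ℝ → K}

/-- Two `E`-edges forming an induced `2K₂` are separated. -/
lemma sep {f1 f2 g1 g2 : K} (h11 : -1 < f1 - g1 ∧ f1 - g1 < 1)
    (h22 : -1 < f2 - g2 ∧ f2 - g2 < 1) (h12 : Out s (f1 - g2)) (h21 : Out s (f2 - g1))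
    (hle : f1 ≤ f2) : f1 < g2 - 1 ∧ g1 + 1 < f2 := by
  constructor
  · rcases h12 with h | h
    · linarith
    · linarith [h.1, h22.2]
  · rcases h21 with h | h
    · linarith [h11.1]
    · linarith [h.1]

/-- Three pairwise separated `E`-edges have `f`-spread more than `2`. -/
lemma three {f1 f2 f3 g1 g2 g3 c : K}
    (h11 : -1 < f1 - g1 ∧ f1 - g1 < 1)
    (h22 : -1 < f2 - g2 ∧ f2 - g2 < 1)
    (h33 : -1 < f3 - g3 ∧ f3 - g3 < 1)
    (h12 : Out s (f1 - g2)) (h21 : Out s (f2 - g1))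
    (h13 : Out s (f1 - g3)) (h31 : Out s (f3 - g1))
    (h23 : Out s (f2 - g3)) (h32 : Out s (f3 - g2))
    (c1 : -1 < f1 - c ∧ f1 - c < 1) (c2 : -1 < f2 - c ∧ f2 - c < 1)
    (c3 : -1 < f3 - c ∧ f3 - c < 1) : False := by
  obtain ⟨c11, c12⟩ := c1
  obtain ⟨c21, c22⟩ := c2
  obtain ⟨c31, c32⟩ := c3
  rcases le_total f1 f2 with a | a <;> rcases le_total f2 f3 with b | b <;>
    rcases le_total f1 f3 with d | d
  · have e1 := sep h11 h22 h12 h21 a
    have e2 := sep h22 h33 h23 h32 b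
    linarith [e1.1, e2.2]
  · have e1 := sep h11 h22 h12 h21 a
    have e2 := sep h22 h33 h23 h32 b
    linarith [e1.1, e2.2]
  · have e1 := sep h11 h33 h13 h31 d
    have e2 := sep h33 h22 h32 h23 b
    linarith [e1.1, e2.2]
  · have e1 := sep h33 h11 h31 h13 d
    have e2 := sep h11 h22 h12 h21 a
    linarith [e1.1, e2.2]
  · have e1 := sep h22 h11 h21 h12 a
    have e2 := sep h11 h33 h13 h31 d
    linarith [e1.1, e2.2]
  · have e1 := sep h22 h33 h23 h32 b
    have e2 := sep h33 h11 h31 h13 d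
    linarith [e1.1, e2.2]
  · have e1 := sep h33 h22 h32 h23 b
    have e2 := sep h22 h11 h21 h12 a
    linarith [e1.1, e2.2]
  · have e1 := sep h33 h22 h32 h23 b
    have e2 := sep h22 h11 h21 h12 a
    linarith [e1.1, e2.2]

omit [IsStrictOrderedRing K] in
lemma Out.lt {d : K} (hs : -1 < s) (h : Out s d) : d < s := by
  rcases h with h | h
  · exact h.trans hs
  · exact h.2

/-- Two edges of an induced `2K₂` are not both of type `H`. -/
lemma noHH {f1 f2 g1 g2 : K} (hs : 1 < s) (h11 : s < f1 - g1) (h22 : s < f2 - g2)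
    (h12 : Out s (f1 - g2)) (h21 : Out s (f2 - g1)) : False := by
  have h1 : (-1 : K) < s := by linarith
  have := h12.lt h1
  have := h21.lt h1
  linarith

/-- Four pairwise separated edges cannot all be `E`-adjacent to one further vertex. -/
lemma four {f1 f2 f3 f4 g1 g2 g3 g4 c : K} (hs : 1 < s)
    (h11 : In s (f1 - g1)) (h22 : In s (f2 - g2)) (h33 : In s (f3 - g3))
    (h44 : In s (f4 - g4))
    (h12 : Out s (f1 - g2)) (h21 : Out s (f2 - g1))
    (h13 : Out s (f1 - g3)) (h31 : Out s (f3 - g1))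
    (h14 : Out s (f1 - g4)) (h41 : Out s (f4 - g1))
    (h23 : Out s (f2 - g3)) (h32 : Out s (f3 - g2))
    (h24 : Out s (f2 - g4)) (h42 : Out s (f4 - g2))
    (h34 : Out s (f3 - g4)) (h43 : Out s (f4 - g3))
    (c1 : -1 < f1 - c ∧ f1 - c < 1) (c2 : -1 < f2 - c ∧ f2 - c < 1)
    (c3 : -1 < f3 - c ∧ f3 - c < 1) (c4 : -1 < f4 - c ∧ f4 - c < 1) : False := by
  rcases h11 with e1 | e1
  · rcases h22 with e2 | e2
    · rcases h33 with e3 | e3
      · exact three e1 e2 e3 h12 h21 h13 h31 h23 h32 c1 c2 c3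
      · rcases h44 with e4 | e4
        · exact three e1 e2 e4 h12 h21 h14 h41 h24 h42 c1 c2 c4
        · exact noHH hs e3 e4 h34 h43
    · rcases h33 with e3 | e3
      · rcases h44 with e4 | e4
        · exact three e1 e3 e4 h13 h31 h14 h41 h34 h43 c1 c3 c4
        · exact noHH hs e2 e4 h24 h42
      · exact noHH hs e2 e3 h23 h32
  · rcases h22 with e2 | e2
    · rcases h33 with e3 | e3
      · rcases h44 with e4 | e4
        · exact three e2 e3 e4 h23 h32 h24 h42 h34 h43 c2 c3 c4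
        · exact noHH hs e1 e4 h14 h41
      · exact noHH hs e1 e3 h13 h31
    · exact noHH hs e1 e2 h12 h21

/-- The embedding hypothesis (away from the boundary of the windows in the source, and avoiding the
boundary in the target). -/
def Emb (t : ℝ) (s : K) (f g : ℝ → K) : Prop :=
  ∀ u v : ℝ, (In t (u - v) → In s (f u - g v)) ∧ (Out t (u - v) → Out s (f u - g v))

lemma wide (h : Emb t s f g) (hs : 1 < s) {δ : ℝ} (hδ : 0 < δ) (hδ1 : δ < 1)
    (ht : 3 + 3 * δ < t)
    (a : ℝ) (c : K)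
    (hc : ∀ x : ℝ, a ≤ x → x ≤ a + 2 + 3 * δ → -1 < f x - c ∧ f x - c < 1) : False := by
  have E : ∀ x y : ℝ, -1 < x - y → x - y < 1 → In s (f x - g y) :=
    fun x y h1 h2 => (h x y).1 (Or.inl ⟨h1, h2⟩)
  have N1 : ∀ x y : ℝ, x - y < -1 → Out s (f x - g y) := fun x y h1 => (h x y).2 (Or.inl h1)
  have N2 : ∀ x y : ℝ, 1 < x - y → x - y < t → Out s (f x - g y) :=
    fun x y h1 h2 => (h x y).2 (Or.inr ⟨h1, h2⟩)
  refine four (f1 := f a) (f2 := f (a + δ)) (f3 := f (a + 2 + 2 * δ)) (f4 := f (a + 2 + 3 * δ))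
    (g1 := g (a - 1 + δ / 2)) (g2 := g (a + 1 + δ / 2)) (g3 := g (a + 1 + 5 * δ / 2))
    (g4 := g (a + 3 + 5 * δ / 2)) (c := c) hs
    (E _ _ (by linarith) (by linarith)) (E _ _ (by linarith) (by linarith))
    (E _ _ (by linarith) (by linarith)) (E _ _ (by linarith) (by linarith))
    ?_ ?_ ?_ ?_ ?_ ?_ ?_ ?_ ?_ ?_ ?_ ?_
    (hc _ (by linarith) (by linarith)) (hc _ (by linarith) (by linarith))
    (hc _ (by linarith) (by linarith)) (hc _ (by linarith) (by linarith))
  · exact N1 _ _ (by linarith)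
  · exact N2 _ _ (by linarith) (by linarith)
  · exact N1 _ _ (by linarith)
  · exact N2 _ _ (by linarith) (by linarith)
  · exact N1 _ _ (by linarith)
  · exact N2 _ _ (by linarith) (by linarith)
  · exact N1 _ _ (by linarith)
  · exact N2 _ _ (by linarith) (by linarith)
  · exact N1 _ _ (by linarith)
  · exact N2 _ _ (by linarith) (by linarith)
  · exact N1 _ _ (by linarith)
  · exact N2 _ _ (by linarith) (by linarith)

/-- true `E`-pairs have type `E`. -/
lemma typeE (h : Emb t s f g) (hs : 1 < s) (ht : 3 < t) {u v : ℝ} (huv : -1 < u - v)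
    (huv' : u - v < 1) : -1 < f u - g v ∧ f u - g v < 1 := by
  have hw : In s (f u - g v) := (h u v).1 (Or.inl ⟨huv, huv'⟩)
  rcases hw with hw | hw
  · exact hw
  exfalso
  have hs' : (-1 : K) < s := by linarith
  -- slack
  obtain ⟨δ, hδ, h1, h2, h3⟩ : ∃ δ : ℝ, 0 < δ ∧ 3 + 5 * δ < t ∧ δ < u - v + 1 ∧ δ < 1 - (u - v) := by
    refine ⟨min (min ((t - 3) / 6) ((u - v + 1) / 2)) ((1 - (u - v)) / 2), ?_, ?_, ?_, ?_⟩
    · refine lt_min (lt_min ?_ ?_) ?_ <;> linarith
    · have := (min_le_left (min ((t - 3) / 6) ((u - v + 1) / 2)) ((1 - (u - v)) / 2)).trans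
        (min_le_left _ _)
      linarith
    · have := (min_le_left (min ((t - 3) / 6) ((u - v + 1) / 2)) ((1 - (u - v)) / 2)).trans
        (min_le_right _ _)
      linarith
    · have := min_le_right (min ((t - 3) / 6) ((u - v + 1) / 2)) ((1 - (u - v)) / 2)
      linarith
  -- the vertex v' = v + 1 - t + δ'/2 is non-adjacent to u
  have hn : Out s (f u - g (v + 1 + δ - δ / 2 - t)) :=
    (h u _).2 (Or.inr ⟨by linarith, by linarith⟩)
  have hn' := hn.lt hs'
  refine wide h hs hδ (by linarith) (by linarith) (v + 1 + δ) (g (v + 1 + δ - δ / 2 - t)) ?_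
  intro x hx1 hx2
  have e1 := ((h x v).2 (Or.inr ⟨by linarith, by linarith⟩)).lt hs'
  have hlt : f x < f u := by linarith
  have e2 : In s (f x - g (v + 1 + δ - δ / 2 - t)) := (h x _).1 (Or.inr (by linarith))
  rcases e2 with e2 | e2
  · exact e2
  · exfalso; linarith

/-- step lemma: the sign of an `f`-step equals that of the `g`-step. -/
lemma step (h : Emb t s f g) (hs : 1 < s) (ht : 3 < t) {u δ v δ' : ℝ}
    (h1 : -1 < u - v) (h1' : u - v < 1) (h2 : -1 < u - v - δ') (_h2' : u - v - δ' < 1)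
    (_h3 : -1 < u + δ - v - δ') (h3' : u + δ - v - δ' < 1) (h4 : 1 < u + δ - v)
    (_h4' : u + δ - v < t) :
    (f u < f (u + δ) ∧ g v < g (v + δ')) ∨ (f (u + δ) < f u ∧ g (v + δ') < g v) := by
  have e1 := typeE h hs ht (u := u) (v := v) h1 h1'
  have e2 := typeE h hs ht (u := u) (v := v + δ') (by linarith) (by linarith)
  have e3 := typeE h hs ht (u := u + δ) (v := v + δ') (by linarith) (by linarith)
  rcases (h (u + δ) v).2 (Or.inr ⟨by linarith, by linarith⟩) with n | n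
  · right; constructor <;> linarith [e1.1, e1.2, e2.1, e2.2, e3.1, e3.2]
  · left; constructor <;> linarith [e1.1, e1.2, e2.1, e2.2, e3.1, e3.2, n.1]

lemma S_iff_T (h : Emb t s f g) (hs : 1 < s) (ht : 3 < t) {u δ : ℝ} (h0 : 0 < δ) (h2 : δ < 2) :
    (f u < f (u + δ) ∧ g (u - 1 + δ/2) < g (u - 1 + δ/2 + 1)) ∨
    (f (u + δ) < f u ∧ g (u - 1 + δ/2 + 1) < g (u - 1 + δ/2)) := by
  apply step h hs ht <;> linarith

lemma S1_iff_T1 (h : Emb t s f g) (hs : 1 < s) (ht : 3 < t) {v x : ℝ} (h0 : 0 < x) (h2 : x < 1) :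
    (f (v + x) < f (v + x + 1) ∧ g v < g (v + 1)) ∨
    (f (v + x + 1) < f (v + x) ∧ g (v + 1) < g v) := by
  apply step h hs ht <;> linarith

lemma T_local (h : Emb t s f g) (hs : 1 < s) (ht : 3 < t) {v w : ℝ} (hvw : v ≤ w)
    (hwv : w < v + 1) :
    g v < g (v + 1) ↔ g w < g (w + 1) := by
  have h1 := S1_iff_T1 h hs ht (v := v) (x := (w - v + 1) / 2) (by linarith) (by linarith)
  have h2 := S1_iff_T1 h hs ht (v := w) (x := (v - w + 1) / 2) (by linarith) (by linarith)
  have e1 : w + (v - w + 1) / 2 = v + (w - v + 1) / 2 := by ring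
  rw [e1] at h2
  constructor
  · intro hg
    rcases h1 with h1 | h1
    · rcases h2 with h2 | h2
      · exact h2.2
      · exact absurd h1.1 (not_lt.2 h2.1.le)
    · exact absurd hg (not_lt.2 h1.2.le)
  · intro hg
    rcases h1 with h1 | h1
    · exact h1.2
    · rcases h2 with h2 | h2
      · exact absurd h2.1 (not_lt.2 h1.1.le)
      · exact absurd hg (not_lt.2 h2.2.le)

lemma T_const_aux (h : Emb t s f g) (hs : 1 < s) (ht : 3 < t) (n : ℕ) :
    ∀ v w : ℝ, v ≤ w → w ≤ v + n / 2 → (g v < g (v + 1) ↔ g w < g (w + 1)) := by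
  induction n with
  | zero =>
    intro v w h1 h2
    have : v = w := by
      norm_num at h2
      linarith
    rw [this]
  | succ n ih =>
    intro v w h1 h2
    push_cast at h2
    by_cases hc : w ≤ v + 1/2
    · exact T_local h hs ht h1 (by linarith)
    · push Not at hc
      rw [T_local h hs ht (v := v) (w := v + 1/2) (by linarith) (by linarith)]
      apply ih <;> linarith

lemma T_const (h : Emb t s f g) (hs : 1 < s) (ht : 3 < t) (v w : ℝ) :
    (g v < g (v + 1) ↔ g w < g (w + 1)) := by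
  rcases le_total v w with hvw | hvw
  · obtain ⟨n, hn⟩ := exists_nat_ge (2 * (w - v))
    exact T_const_aux h hs ht n v w hvw (by linarith)
  · obtain ⟨n, hn⟩ := exists_nat_ge (2 * (v - w))
    exact (T_const_aux h hs ht n w v hvw (by linarith)).symm

lemma T_pos (h : Emb t s f g) (hs : 1 < s) (ht : 3 < t) (v : ℝ) : g v < g (v + 1) := by
  by_contra hc
  have hall : ∀ w, ¬ g w < g (w + 1) := fun w hw => hc ((T_const h hs ht w v).1 hw)
  have hf : ∀ w, f (w + 1) < f w := by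
    intro w
    have := S1_iff_T1 h hs ht (v := w - 1/2) (x := 1/2) (by norm_num) (by norm_num)
    rw [show w - 1/2 + 1/2 = w by ring] at this
    rcases this with h1 | h1
    · exact absurd h1.2 (hall _)
    · exact h1.1
  have hf' : ∀ n : ℕ, f (3/2 + n) ≤ f (3/2) := by
    intro n
    induction n with
    | zero => simp
    | succ n ih =>
      have := hf (3/2 + n)
      push_cast
      rw [← add_assoc]
      exact this.le.trans ih
  have e0 := typeE h hs ht (u := 1/2) (v := 0) (by norm_num) (by norm_num)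
  have n1 := (h (3/2) 0).2 (Or.inr ⟨by norm_num, by linarith⟩)
  have h01 : f (3/2) < f (1/2) := by
    have := hf (1/2)
    rwa [show (1/2 : ℝ) + 1 = 3/2 by norm_num] at this
  have n1' : f (3/2) - g 0 < -1 := by
    rcases n1 with n1 | n1
    · exact n1
    · linarith [e0.2, n1.1]
  obtain ⟨n, hn⟩ := exists_nat_ge t
  have hw : In s (f (3/2 + n) - g 0) := (h _ _).1 (Or.inr (by linarith))
  have := hf' n
  rcases hw with hw | hw
  · linarith [hw.1]
  · linarith

lemma f_step (h : Emb t s f g) (hs : 1 < s) (ht : 3 < t) {u δ : ℝ} (h0 : 0 < δ) (h2 : δ < 2) :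
    f u < f (u + δ) := by
  rcases S_iff_T h hs ht (u := u) h0 h2 with h1 | h1
  · exact h1.1
  · exact absurd (T_pos h hs ht _) (not_lt.2 h1.2.le)

lemma f_mono_aux (h : Emb t s f g) (hs : 1 < s) (ht : 3 < t) (n : ℕ) :
    ∀ v w : ℝ, v < w → w ≤ v + n → f v < f w := by
  induction n with
  | zero => intro v w h1 h2; norm_num at h2; linarith
  | succ n ih =>
    intro v w h1 h2
    push_cast at h2
    by_cases hc : w ≤ v + 1
    · have := f_step h hs ht (u := v) (δ := w - v) (by linarith) (by linarith)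
      rwa [show v + (w - v) = w by ring] at this
    · push Not at hc
      exact (f_step h hs ht (u := v) (δ := 1) (by norm_num) (by norm_num)).trans
        (ih (v + 1) w hc (by linarith))

lemma f_mono (h : Emb t s f g) (hs : 1 < s) (ht : 3 < t) : StrictMono f := by
  intro v w hvw
  obtain ⟨n, hn⟩ := exists_nat_ge (w - v)
  exact f_mono_aux h hs ht n v w hvw (by linarith)

lemma typeL (h : Emb t s f g) (hs : 1 < s) (ht : 3 < t) {u v : ℝ} (huv : u - v < -1) :
    f u - g v < -1 := by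
  have e := typeE h hs ht (u := v - 1/2) (v := v) (by linarith) (by linarith)
  have m := f_mono h hs ht (show u < v - 1/2 by linarith)
  rcases (h u v).2 (Or.inl huv) with n | n
  · exact n
  · linarith [e.2, n.1]

lemma typeM (h : Emb t s f g) (hs : 1 < s) (ht : 3 < t) {u v : ℝ} (huv : 1 < u - v)
    (huv' : u - v < t) : 1 < f u - g v ∧ f u - g v < s := by
  have e := typeE h hs ht (u := v) (v := v) (by linarith) (by linarith)
  have m := f_mono h hs ht (show v < u by linarith)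
  rcases (h u v).2 (Or.inr ⟨huv, huv'⟩) with n | n
  · linarith [e.1]
  · exact n

lemma typeH (h : Emb t s f g) (hs : 1 < s) (ht : 3 < t) {u v : ℝ} (huv : t < u - v) :
    s < f u - g v := by
  have e := typeM h hs ht (u := v + 2) (v := v) (by linarith) (by linarith)
  have m := f_mono h hs ht (show v + 2 < u by linarith)
  rcases (h u v).1 (Or.inr huv) with w | w
  · linarith [e.1, w.2]
  · exact w

lemma P1 (h : Emb t s f g) (hs : 1 < s) (ht : 3 < t) {ε : ℝ} (hε : 0 < ε) (hε2 : ε < 1) (n : ℕ)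
    (u : ℝ) : f u + 2 * n ≤ f (u + n * (2 + ε)) := by
  induction n with
  | zero => simp
  | succ n ih =>
    set w := u + n * (2 + ε) with hw
    have a := typeL h hs ht (u := w) (v := w + 1 + ε / 2) (by linarith)
    have b := (typeM h hs ht (u := w + 2 + ε) (v := w + 1 + ε / 2) (by linarith) (by linarith)).1
    have e : u + ((n + 1 : ℕ) : ℝ) * (2 + ε) = w + 2 + ε := by rw [hw]; push_cast; ring
    rw [e]
    push_cast
    linarith

lemma P2 (h : Emb t s f g) (hs : 1 < s) (ht : 3 < t) {ε : ℝ} (hε : 0 < ε) (hε2 : ε < 1)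
    (n : ℕ) (u : ℝ) :
    f (u + n * (2 - ε)) ≤ f u + 2 * n := by
  induction n with
  | zero => simp
  | succ n ih =>
    set w := u + n * (2 - ε) with hw
    have a := (typeE h hs ht (u := w) (v := w + 1 - ε / 2) (by linarith) (by linarith)).1
    have b := (typeE h hs ht (u := w + 2 - ε) (v := w + 1 - ε / 2) (by linarith) (by linarith)).2
    have e : u + ((n + 1 : ℕ) : ℝ) * (2 - ε) = w + 2 - ε := by rw [hw]; push_cast; ring
    rw [e]
    push_cast
    linarith

lemma P3 (h : Emb t s f g) (hs : 1 < s) (ht : 3 < t) {ε : ℝ} (hε : 0 < ε) (n : ℕ) (u : ℝ) :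
    f u + n * (s + 1) ≤ f (u + n * (t + 1 + ε)) := by
  induction n with
  | zero => simp
  | succ n ih =>
    set w := u + n * (t + 1 + ε) with hw
    have a := typeL h hs ht (u := w) (v := w + 1 + ε / 2) (by linarith)
    have b := typeH h hs ht (u := w + t + 1 + ε) (v := w + 1 + ε / 2) (by linarith)
    have e : u + ((n + 1 : ℕ) : ℝ) * (t + 1 + ε) = w + t + 1 + ε := by rw [hw]; push_cast; ring
    rw [e]
    push_cast
    linarith

lemma P4 (h : Emb t s f g) (hs : 1 < s) (ht : 3 < t) {ε : ℝ} (hε : 0 < ε) (hε2 : ε < 1)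
    (n : ℕ) (u : ℝ) :
    f (u + n * (t + 1 - ε)) ≤ f u + n * (s + 1) := by
  induction n with
  | zero => simp
  | succ n ih =>
    set w := u + n * (t + 1 - ε) with hw
    have a := (typeE h hs ht (u := w) (v := w + 1 - ε / 2) (by linarith) (by linarith)).1
    have b := (typeM h hs ht (u := w + t + 1 - ε) (v := w + 1 - ε / 2)
      (by linarith) (by linarith)).2
    have e : u + ((n + 1 : ℕ) : ℝ) * (t + 1 - ε) = w + t + 1 - ε := by rw [hw]; push_cast; ring
    rw [e]
    push_cast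
    linarith

lemma cut1 (h : Emb t s f g) (hs : 1 < s) (ht : 3 < t) {m n : ℕ}
    (hmn : 2 * (m : ℝ) < n * (t + 1)) : 2 * (m : K) ≤ n * (s + 1) := by
  have hpos : (0:ℝ) < m + n + 1 := by positivity
  obtain ⟨ε, hε0, hε⟩ : ∃ ε : ℝ, 0 < ε ∧ ε * (m + n + 1) < min (n * (t + 1) - 2 * m) 1 := by
    have hmin : 0 < min (n * (t + 1) - 2 * (m:ℝ)) 1 := lt_min (by linarith) one_pos
    refine ⟨min (n * (t + 1) - 2 * (m:ℝ)) 1 / (2 * (m + n + 1)), by positivity, ?_⟩
    rw [div_mul_eq_mul_div, div_lt_iff₀ (by positivity)]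
    nlinarith
  have hε1 := hε.trans_le (min_le_left _ _)
  have hε2 := hε.trans_le (min_le_right _ _)
  have hm0 : (0:ℝ) ≤ m := Nat.cast_nonneg _
  have hn0 : (0:ℝ) ≤ n := Nat.cast_nonneg _
  have hε3 : ε < 1 := by nlinarith
  have a := P1 h hs ht hε0 hε3 m 0
  have b := P4 h hs ht hε0 hε3 n 0
  have c := f_mono h hs ht (show (0:ℝ) + m * (2 + ε) < 0 + n * (t + 1 - ε) by nlinarith)
  linarith

lemma cut2 (h : Emb t s f g) (hs : 1 < s) (ht : 3 < t) {m n : ℕ}
    (hmn : n * (t + 1) < 2 * (m : ℝ)) : n * (s + 1) ≤ 2 * (m : K) := by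
  have hpos : (0:ℝ) < m + n + 1 := by positivity
  obtain ⟨ε, hε0, hε⟩ : ∃ ε : ℝ, 0 < ε ∧ ε * (m + n + 1) < min (2 * m - n * (t + 1)) 1 := by
    have hmin : 0 < min (2 * (m:ℝ) - n * (t + 1)) 1 := lt_min (by linarith) one_pos
    refine ⟨min (2 * (m:ℝ) - n * (t + 1)) 1 / (2 * (m + n + 1)), by positivity, ?_⟩
    rw [div_mul_eq_mul_div, div_lt_iff₀ (by positivity)]
    nlinarith
  have hε1 := hε.trans_le (min_le_left _ _)
  have hε2 := hε.trans_le (min_le_right _ _)
  have hm0 : (0:ℝ) ≤ m := Nat.cast_nonneg _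
  have hn0 : (0:ℝ) ≤ n := Nat.cast_nonneg _
  have hε3 : ε < 1 := by nlinarith
  have a := P3 h hs ht hε0 n 0
  have b := P2 h hs ht hε0 hε3 m 0
  have c := f_mono h hs ht (show (0:ℝ) + n * (t + 1 + ε) < 0 + m * (2 - ε) by nlinarith)
  linarith

/-- **Duality.**  Complementing and reversing exchanges the two bounded windows. -/
lemma dual (h : Emb t s f g) (hs : 1 < s) (ht : 1 < t) :
    Emb (1 + 4 / (t - 1)) (1 + 4 / (s - 1))
      (fun x => 1 + 2 / (s - 1) + 2 / (s - 1) * g (x * ((t - 1) / 2)))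
      (fun y => 2 / (s - 1) * f ((y + 1) * ((t - 1) / 2) + 1)) := by
  intro x y
  set u := (y + 1) * ((t - 1) / 2) + 1 with hu
  set v := x * ((t - 1) / 2) with hv
  have ht' : 0 < t - 1 := by linarith
  have hs' : 0 < s - 1 := by linarith
  set β := 2 / (s - 1) with hβ
  have hβ0 : 0 < β := by rw [hβ]; positivity
  have hβs : β * (s - 1) = 2 := by rw [hβ]; field_simp
  have h4 : 4 / (s - 1) = 2 * β := by rw [hβ]; ring
  have h4t : 4 / (t - 1) * (t - 1) = 4 := by field_simp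
  have e : (1 + β + β * g v) - β * f u = 1 + β - β * (f u - g v) := by ring
  have euv : u - v = 1 + (1 - (x - y)) * ((t - 1) / 2) := by rw [hu, hv]; ring
  have hτ : 0 < 4 / (t - 1) := by positivity
  constructor
  · intro hin
    -- complement-adjacent means `Out` for the original
    have hout : Out t (u - v) := by
      rcases hin with h1 | h1
      · right
        rw [euv]
        constructor
        · nlinarith [h1.1, h1.2]
        · nlinarith [h1.1, h1.2]
      · left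
        rw [euv]
        nlinarith
    rcases (h u v).2 hout with h1 | h1
    · right
      rw [e, h4]
      nlinarith
    · left
      rw [e]
      constructor
      · nlinarith [h1.1, h1.2]
      · nlinarith [h1.1, h1.2]
  · intro hout
    have hin : In t (u - v) := by
      rcases hout with h1 | h1
      · right
        rw [euv]
        nlinarith
      · left
        rw [euv]
        constructor
        · nlinarith [h1.1, h1.2]
        · nlinarith [h1.1, h1.2]
    rcases (h u v).1 hin with h1 | h1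
    · right
      rw [e, h4]
      constructor
      · nlinarith [h1.1, h1.2]
      · nlinarith [h1.1, h1.2]
    · left
      rw [e]
      nlinarith

end Abstract

/-- With `θ = (-1,1,t)`, `t > 1`, the parity condition is the window `[-1,1) ∪ [t,∞)`. -/
lemma odd_iff {t : ℝ} (ht : 1 < t) (d : ℝ) :
    Odd (Finset.univ.filter fun i => (![-1, 1, t] : Fin 3 → ℝ) i ≤ d).card ↔ Win t d := by
  rw [Finset.card_filter, Fin.sum_univ_three]
  unfold Win
  by_cases h1 : -1 ≤ d
  · by_cases h2 : 1 ≤ d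
    · by_cases h3 : t ≤ d
      · simp [h1, h2, h3]; decide
      · have h4 : ¬ d < 1 := not_lt.2 h2
        simp [h1, h2, h3]
        exact ⟨fun h => absurd h (by decide), fun h => absurd h h4⟩
    · have h3 : ¬ t ≤ d := by linarith
      simp [h1, h2, h3]
      linarith
  · have h2 : ¬ 1 ≤ d := by linarith
    have h3 : ¬ t ≤ d := by linarith
    simp [h1, h2, h3]

lemma mem_C {t : ℝ} (ht : 1 < t) (G : Σ n : ℕ, SimpleGraph (Fin n)) :
    G ∈ C t ↔ ∃ r : Fin G.1 → ℝ, ∀ v w, v ≠ w → (G.2.Adj v w ↔ Win t (r v + r w)) := by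
  unfold C IsMultithreshold
  simp only [Set.mem_ofPred_eq, odd_iff ht]

/-- The infinite split graph: a clique of left copies of reals, an independent set of right copies,
and `u ~ v` iff `u - v ∈ [-1,1) ∪ [t,∞)`. -/
def Big (t : ℝ) : SimpleGraph (ℝ ⊕ ℝ) where
  Adj x y := match x, y with
    | Sum.inl u, Sum.inl u' => u ≠ u'
    | Sum.inr _, Sum.inr _ => False
    | Sum.inl u, Sum.inr v => Win t (u - v)
    | Sum.inr v, Sum.inl u => Win t (u - v)
  symm := ⟨by
    rintro (x | x) (y | y) h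
    · exact fun e => h e.symm
    · exact h
    · exact h
    · exact h⟩
  loopless := ⟨by
    rintro (x | x) h
    · exact h rfl
    · exact h⟩

/-- The rank of a vertex of the big graph (with a large shift `M`). -/
def rk (M : ℝ) : ℝ ⊕ ℝ → ℝ
  | Sum.inl u => u + M
  | Sum.inr v => -v - M

/-- absolute value of the label -/
def lab : ℝ ⊕ ℝ → ℝ
  | Sum.inl u => |u|
  | Sum.inr v => |v|

/-- The induced subgraph of `Big t` on a finite set, transported to `Fin n`. -/
noncomputable def sub (t : ℝ) (F : Finset (ℝ ⊕ ℝ)) : Σ n : ℕ, SimpleGraph (Fin n) :=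
  ⟨F.card, (Big t).comap fun i => ((F.equivFin.symm i : F) : ℝ ⊕ ℝ)⟩

lemma big_adj_rk {t : ℝ} (ht : 1 < t) {B : ℝ} (x y : ℝ ⊕ ℝ) (hne : x ≠ y) (hi : lab x ≤ B)
    (hj : lab y ≤ B) :
    (Big t).Adj x y ↔ Win t (rk (B + t + 1) x + rk (B + t + 1) y) := by
  rcases x with x | x <;> rcases y with y | y
  · have h1 : |x| ≤ B := hi
    have h2 : |y| ≤ B := hj
    have h3 := neg_abs_le x
    have h4 := neg_abs_le y
    constructor
    · intro _
      right
      simp only [rk]
      linarith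
    · intro _
      show x ≠ y
      intro e
      exact hne (by rw [e])
  · show Win t (x - y) ↔ _
    have : rk (B + t + 1) (Sum.inl x) + rk (B + t + 1) (Sum.inr y) = x - y := by
      simp only [rk]; ring
    rw [this]
  · show Win t (y - x) ↔ _
    have : rk (B + t + 1) (Sum.inr x) + rk (B + t + 1) (Sum.inl y) = y - x := by
      simp only [rk]; ring
    rw [this]
  · have h1 : |x| ≤ B := hi
    have h2 : |y| ≤ B := hj
    have h3 := neg_abs_le x
    have h4 := neg_abs_le y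
    constructor
    · intro h
      exact False.elim h
    · intro h
      exfalso
      simp only [rk, Win] at h
      rcases h with h | h
      · linarith [h.1]
      · linarith

lemma sub_mem {t : ℝ} (ht : 1 < t) (F : Finset (ℝ ⊕ ℝ)) : sub t F ∈ C t := by
  rw [mem_C ht]
  have hlab : ∀ x, 0 ≤ lab x := by rintro (x | x) <;> exact abs_nonneg _
  have hle : ∀ x ∈ F, lab x ≤ ∑ x ∈ F, lab x :=
    fun x hx => Finset.single_le_sum (fun y _ => hlab y) hx
  refine ⟨fun i => rk (∑ x ∈ F, lab x + t + 1) ((F.equivFin.symm i : F) : ℝ ⊕ ℝ), ?_⟩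
  intro i j hij
  have hne : ((F.equivFin.symm i : F) : ℝ ⊕ ℝ) ≠ ((F.equivFin.symm j : F) : ℝ ⊕ ℝ) := by
    intro h
    exact hij (F.equivFin.symm.injective (Subtype.ext h))
  exact big_adj_rk ht _ _ hne (hle _ (F.equivFin.symm i).2) (hle _ (F.equivFin.symm j).2)

open Filter

/-- A finite `(-1,1,s)`-threshold graph has ranks avoiding the thresholds. -/
lemma generic {s : ℝ} {n : ℕ} {G : SimpleGraph (Fin n)} (r : Fin n → ℝ)
    (hr : ∀ v w, v ≠ w → (G.Adj v w ↔ Win s (r v + r w))) :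
    ∃ r' : Fin n → ℝ, ∀ v w, v ≠ w → (G.Adj v w → In s (r' v + r' w)) ∧
      (¬ G.Adj v w → Out s (r' v + r' w)) := by
  classical
  -- a positive ε such that sums below a threshold stay below after adding ε
  have hex : ∃ ε : ℝ, 0 < ε ∧ ∀ q : Fin n × Fin n, ∀ c : ℝ, (c = -1 ∨ c = 1 ∨ c = s) →
      r q.1 + r q.2 < c → r q.1 + r q.2 + ε < c := by
    have h1 : ∀ q : Fin n × Fin n, ∃ ε : ℝ, 0 < ε ∧ ∀ c : ℝ, (c = -1 ∨ c = 1 ∨ c = s) →
        r q.1 + r q.2 < c → r q.1 + r q.2 + ε < c := by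
      intro q
      set d := r q.1 + r q.2
      have g1 : ∀ c : ℝ, ∃ ε : ℝ, 0 < ε ∧ (d < c → d + ε < c) := by
        intro c
        by_cases hc : d < c
        · exact ⟨(c - d) / 2, by linarith, fun _ => by linarith⟩
        · exact ⟨1, one_pos, fun h => absurd h hc⟩
      obtain ⟨a, ha, ha'⟩ := g1 (-1)
      obtain ⟨b, hb, hb'⟩ := g1 1
      obtain ⟨e, he, he'⟩ := g1 s
      refine ⟨min a (min b e), lt_min ha (lt_min hb he), ?_⟩
      have m1 := min_le_left a (min b e)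
      have m2 := (min_le_right a (min b e)).trans (min_le_left _ _)
      have m3 := (min_le_right a (min b e)).trans (min_le_right _ _)
      rintro c (rfl | rfl | rfl) hd
      · linarith [ha' hd]
      · linarith [hb' hd]
      · linarith [he' hd]
    choose ε hε hε' using h1
    rcases isEmpty_or_nonempty (Fin n × Fin n) with hE | hE
    · exact ⟨1, one_pos, fun q => hE.elim q⟩
    · obtain ⟨q₀, hq₀⟩ := Finite.exists_min ε
      refine ⟨ε q₀, hε q₀, ?_⟩
      intro q c hc hd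
      have := hε' q c hc hd
      have := hq₀ q
      linarith
  obtain ⟨ε, hε, hgap⟩ := hex
  refine ⟨fun v => r v + ε / 2, ?_⟩
  intro v w hvw
  have e : (r v + ε / 2) + (r w + ε / 2) = r v + r w + ε := by ring
  constructor
  · intro hadj
    show In s ((r v + ε / 2) + (r w + ε / 2))
    rw [e]
    rcases (hr v w hvw).1 hadj with h | h
    · left
      exact ⟨by linarith [h.1], hgap (v, w) 1 (Or.inr (Or.inl rfl)) h.2⟩
    · right
      linarith
  · intro hadj
    show Out s ((r v + ε / 2) + (r w + ε / 2))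
    rw [e]
    have hn : ¬ Win s (r v + r w) := fun h => hadj ((hr v w hvw).2 h)
    unfold Win at hn
    push Not at hn
    by_cases h1 : r v + r w < -1
    · left
      exact hgap (v, w) (-1) (Or.inl rfl) h1
    · right
      have h2 := hn.1 (not_lt.1 h1)
      exact ⟨by linarith, hgap (v, w) s (Or.inr (Or.inr rfl)) hn.2⟩

/-- Compactness: if `C t ⊆ C s` then the infinite graph has ranks in an ultrapower of `ℝ`. -/
lemma exists_emb {t s : ℝ} (ht : 1 < t) (hs : 1 < s) (hsub : C t ⊆ C s) :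
    ∃ (φ : Ultrafilter (Finset (ℝ ⊕ ℝ))) (f g : ℝ → Germ (φ : Filter (Finset (ℝ ⊕ ℝ))) ℝ),
      Emb t (↑s : Germ (φ : Filter (Finset (ℝ ⊕ ℝ))) ℝ) f g := by
  have hF : ∀ F : Finset (ℝ ⊕ ℝ), ∃ r : ℝ ⊕ ℝ → ℝ, ∀ x ∈ F, ∀ y ∈ F, x ≠ y →
      ((Big t).Adj x y → In s (r x + r y)) ∧ (¬ (Big t).Adj x y → Out s (r x + r y)) := by
    intro F
    obtain ⟨r₀, hr₀⟩ := (mem_C hs _).1 (hsub (sub_mem ht F))
    obtain ⟨r, hr⟩ := generic r₀ hr₀
    classical
    refine ⟨fun x => if h : x ∈ F then r (F.equivFin ⟨x, h⟩) else 0, ?_⟩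
    intro x hx y hy hxy
    simp only [hx, hy, dif_pos]
    have hne : F.equivFin ⟨x, hx⟩ ≠ F.equivFin ⟨y, hy⟩ := by
      intro e
      have := F.equivFin.injective e
      exact hxy (congrArg Subtype.val this)
    have hadj : (sub t F).2.Adj (F.equivFin ⟨x, hx⟩) (F.equivFin ⟨y, hy⟩) ↔ (Big t).Adj x y := by
      change (Big t).Adj _ _ ↔ _
      simp
    have := hr _ _ hne
    rw [hadj] at this
    exact this
  choose r hr using hF
  obtain ⟨φ, hφ⟩ : ∃ φ : Ultrafilter (Finset (ℝ ⊕ ℝ)),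
      (φ : Filter (Finset (ℝ ⊕ ℝ))) ≤ atTop := ⟨Ultrafilter.of atTop, Ultrafilter.of_le _⟩
  refine ⟨φ, fun u => ((fun F => r F (Sum.inl u) : Finset (ℝ ⊕ ℝ) → ℝ) :
      Germ (φ : Filter (Finset (ℝ ⊕ ℝ))) ℝ),
    fun v => ((fun F => - r F (Sum.inr v) : Finset (ℝ ⊕ ℝ) → ℝ) :
      Germ (φ : Filter (Finset (ℝ ⊕ ℝ))) ℝ), ?_⟩
  intro u v
  have hev : ∀ᶠ F in (φ : Filter (Finset (ℝ ⊕ ℝ))),
      ((Win t (u - v) → In s (r F (Sum.inl u) + r F (Sum.inr v))) ∧
       (¬ Win t (u - v) → Out s (r F (Sum.inl u) + r F (Sum.inr v)))) := by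
    apply hφ
    have h1 : ∀ᶠ F : Finset (ℝ ⊕ ℝ) in atTop, ({Sum.inl u, Sum.inr v} : Finset (ℝ ⊕ ℝ)) ≤ F :=
      eventually_ge_atTop _
    filter_upwards [h1] with F hF
    have hu : (Sum.inl u : ℝ ⊕ ℝ) ∈ F := hF (by simp)
    have hv : (Sum.inr v : ℝ ⊕ ℝ) ∈ F := hF (by simp)
    exact hr F _ hu _ hv (by simp)
  have hd : ((fun F => r F (Sum.inl u) : Finset (ℝ ⊕ ℝ) → ℝ) :
        Germ (φ : Filter (Finset (ℝ ⊕ ℝ))) ℝ) -
      ((fun F => - r F (Sum.inr v) : Finset (ℝ ⊕ ℝ) → ℝ) :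
        Germ (φ : Filter (Finset (ℝ ⊕ ℝ))) ℝ) =
      ((fun F => r F (Sum.inl u) + r F (Sum.inr v) : Finset (ℝ ⊕ ℝ) → ℝ) :
        Germ (φ : Filter (Finset (ℝ ⊕ ℝ))) ℝ) := by
    rw [← Germ.coe_sub]
    congr 1
    funext F
    simp
  -- transfer of strict inequalities with constants
  have hlt1 : ∀ c : ℝ, (((fun F => r F (Sum.inl u) + r F (Sum.inr v) : Finset (ℝ ⊕ ℝ) → ℝ) :
        Germ (φ : Filter (Finset (ℝ ⊕ ℝ))) ℝ) < (↑c : Germ (φ : Filter (Finset (ℝ ⊕ ℝ))) ℝ)) ↔
      ∀ᶠ F in (φ : Filter (Finset (ℝ ⊕ ℝ))), r F (Sum.inl u) + r F (Sum.inr v) < c :=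
    fun c => Germ.coe_lt
  have hlt2 : ∀ c : ℝ, ((↑c : Germ (φ : Filter (Finset (ℝ ⊕ ℝ))) ℝ) <
        ((fun F => r F (Sum.inl u) + r F (Sum.inr v) : Finset (ℝ ⊕ ℝ) → ℝ) :
        Germ (φ : Filter (Finset (ℝ ⊕ ℝ))) ℝ)) ↔
      ∀ᶠ F in (φ : Filter (Finset (ℝ ⊕ ℝ))), c < r F (Sum.inl u) + r F (Sum.inr v) :=
    fun c => Germ.coe_lt
  have e1 : (-1 : Germ (φ : Filter (Finset (ℝ ⊕ ℝ))) ℝ) =
      (↑(-1 : ℝ) : Germ (φ : Filter (Finset (ℝ ⊕ ℝ))) ℝ) := rfl
  have e2 : (1 : Germ (φ : Filter (Finset (ℝ ⊕ ℝ))) ℝ) =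
      (↑(1 : ℝ) : Germ (φ : Filter (Finset (ℝ ⊕ ℝ))) ℝ) := rfl
  show (In t (u - v) → In _ (((fun F => r F (Sum.inl u) : Finset (ℝ ⊕ ℝ) → ℝ) :
        Germ (φ : Filter (Finset (ℝ ⊕ ℝ))) ℝ) -
      ((fun F => - r F (Sum.inr v) : Finset (ℝ ⊕ ℝ) → ℝ) :
        Germ (φ : Filter (Finset (ℝ ⊕ ℝ))) ℝ))) ∧
    (Out t (u - v) → Out _ (((fun F => r F (Sum.inl u) : Finset (ℝ ⊕ ℝ) → ℝ) :
        Germ (φ : Filter (Finset (ℝ ⊕ ℝ))) ℝ) -
      ((fun F => - r F (Sum.inr v) : Finset (ℝ ⊕ ℝ) → ℝ) :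
        Germ (φ : Filter (Finset (ℝ ⊕ ℝ))) ℝ)))
  rw [hd]
  constructor
  · intro hin
    have hw : Win t (u - v) := by
      rcases hin with h | h
      · exact Or.inl ⟨h.1.le, h.2⟩
      · exact Or.inr h.le
    have hw' : ∀ᶠ F in (φ : Filter (Finset (ℝ ⊕ ℝ))),
        In s (r F (Sum.inl u) + r F (Sum.inr v)) := by
      filter_upwards [hev] with F hF
      exact hF.1 hw
    unfold In at hw'
    rw [Ultrafilter.eventually_or, eventually_and] at hw'
    rcases hw' with h | h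
    · left
      rw [e1, e2, hlt1, hlt2]
      exact h
    · right
      rw [hlt2]
      exact h
  · intro hout
    have hw : ¬ Win t (u - v) := by
      rintro (h | h)
      · rcases hout with h' | h'
        · linarith [h.1]
        · linarith [h.2, h'.1]
      · rcases hout with h' | h'
        · linarith
        · linarith [h'.2]
    have hw' : ∀ᶠ F in (φ : Filter (Finset (ℝ ⊕ ℝ))),
        Out s (r F (Sum.inl u) + r F (Sum.inr v)) := by
      filter_upwards [hev] with F hF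
      exact hF.2 hw
    unfold Out at hw'
    rw [Ultrafilter.eventually_or, eventually_and] at hw'
    rcases hw' with h | h
    · left
      rw [e1, hlt1]
      exact h
    · right
      rw [e2, hlt1, hlt2]
      exact h

/-- A positive rational strictly between two positive reals. -/
lemma btwn (a b : ℝ) (ha : 0 < a) (hab : a < b) :
    ∃ m n : ℕ, (n : ℝ) * a < m ∧ (m : ℝ) < n * b := by
  obtain ⟨q, hq1, hq2⟩ := exists_rat_btwn hab
  have hq0 : 0 < q := by
    have : (0:ℝ) < q := ha.trans hq1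
    exact_mod_cast this
  have hnum : ((q.num.toNat : ℕ) : ℝ) = q * q.den := by
    have h1 : ((q.num.toNat : ℕ) : ℤ) = q.num := Int.toNat_of_nonneg (Rat.num_nonneg.2 hq0.le)
    have h2 : (q.num : ℝ) = q * q.den := by
      have := Rat.mul_den_eq_num q
      have h3 : ((q * q.den : ℚ) : ℝ) = ((q.num : ℚ) : ℝ) := by rw [this]
      push_cast at h3
      exact h3.symm
    rw [← h2]
    exact_mod_cast congrArg (Int.cast : ℤ → ℝ) h1
  have hden : (0:ℝ) < q.den := by exact_mod_cast q.den_pos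
  refine ⟨q.num.toNat, q.den, ?_, ?_⟩
  · rw [hnum, mul_comm]
    exact mul_lt_mul_of_pos_right hq1 hden
  · rw [hnum, mul_comm (q.den : ℝ) b]
    exact mul_lt_mul_of_pos_right hq2 hden

/-- Rigidity for embeddings into ultrapowers, `t > 3`. -/
lemma rigid_aux {φ : Ultrafilter (Finset (ℝ ⊕ ℝ))} {t s : ℝ} (hs : 1 < s) (ht : 3 < t)
    {f g : ℝ → Germ (φ : Filter (Finset (ℝ ⊕ ℝ))) ℝ}
    (h : Emb t (↑s : Germ (φ : Filter (Finset (ℝ ⊕ ℝ))) ℝ) f g) : s = t := by
  have hs' : (1 : Germ (φ : Filter (Finset (ℝ ⊕ ℝ))) ℝ) <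
      (↑s : Germ (φ : Filter (Finset (ℝ ⊕ ℝ))) ℝ) := Germ.const_lt hs
  have hc : ∀ m n : ℕ, ((n : Germ (φ : Filter (Finset (ℝ ⊕ ℝ))) ℝ) *
      ((↑s : Germ (φ : Filter (Finset (ℝ ⊕ ℝ))) ℝ) + 1) ≤
        2 * (m : Germ (φ : Filter (Finset (ℝ ⊕ ℝ))) ℝ)) ↔
      (n : ℝ) * (s + 1) ≤ 2 * m := by
    intro m n
    exact Germ.const_le_iff (l := (φ : Filter (Finset (ℝ ⊕ ℝ)))) (x := (n : ℝ) * (s + 1))
      (y := 2 * (m : ℝ))
  have hc' : ∀ m n : ℕ, (2 * (m : Germ (φ : Filter (Finset (ℝ ⊕ ℝ))) ℝ) ≤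
      (n : Germ (φ : Filter (Finset (ℝ ⊕ ℝ))) ℝ) *
        ((↑s : Germ (φ : Filter (Finset (ℝ ⊕ ℝ))) ℝ) + 1)) ↔
      2 * (m : ℝ) ≤ (n : ℝ) * (s + 1) := by
    intro m n
    exact Germ.const_le_iff (l := (φ : Filter (Finset (ℝ ⊕ ℝ)))) (x := 2 * (m : ℝ))
      (y := (n : ℝ) * (s + 1))
  by_contra hne
  rcases lt_or_gt_of_ne hne with hlt | hlt
  · obtain ⟨m, n, h1, h2⟩ := btwn ((s+1)/2) ((t+1)/2) (by linarith) (by linarith)
    have := (hc' m n).1 (cut1 h hs' ht (m := m) (n := n) (by linarith))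
    linarith
  · obtain ⟨m, n, h1, h2⟩ := btwn ((t+1)/2) ((s+1)/2) (by linarith) (by linarith)
    have := (hc m n).1 (cut2 h hs' ht (m := m) (n := n) (by linarith))
    linarith

/-- **Rigidity.** -/
theorem rigid {t s : ℝ} (hs : 1 < s) (ht : 1 < t) (ht3 : t ≠ 3) (hsub : C t ⊆ C s) : s = t := by
  obtain ⟨φ, f, g, h⟩ := exists_emb ht hs hsub
  rcases lt_or_gt_of_ne ht3 with hlt | hgt
  · have hs' : (1 : Germ (φ : Filter (Finset (ℝ ⊕ ℝ))) ℝ) <
        (↑s : Germ (φ : Filter (Finset (ℝ ⊕ ℝ))) ℝ) := Germ.const_lt hs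
    have hd := dual h hs' ht
    have e : (1 + 4 / ((↑s : Germ (φ : Filter (Finset (ℝ ⊕ ℝ))) ℝ) - 1)) =
        (↑(1 + 4 / (s - 1) : ℝ) : Germ (φ : Filter (Finset (ℝ ⊕ ℝ))) ℝ) := rfl
    rw [e] at hd
    have h1 : 0 < t - 1 := by linarith
    have h2 : 0 < s - 1 := by linarith
    have h3 : 3 < 1 + 4 / (t - 1) := by
      have : 2 < 4 / (t - 1) := by
        rw [lt_div_iff₀ h1]; linarith
      linarith
    have h4 : 1 < 1 + 4 / (s - 1) := by
      have : 0 < 4 / (s - 1) := by positivity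
      linarith
    have h5 := rigid_aux h4 h3 hd
    have h6 : 4 / (s - 1) = 4 / (t - 1) := by linarith
    rw [div_eq_div_iff h2.ne' h1.ne'] at h6
    linarith
  · exact rigid_aux hs hgt h

/-- **MP_86beeb_co, Q1: no such pair exists.**  For distinct reals `s, t > 1` the classes `C_s` and
`C_t` are different: some finite graph belongs to exactly one of them.  Moreover `C_t ⊆ C_s` with
`s, t > 1` and `t ≠ 3` already forces `s = t`. -/
theorem result :
    (∀ s t : ℝ, 1 < s → 1 < t → s ≠ t →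
      ∃ (n : ℕ) (G : SimpleGraph (Fin n)),
        ¬ (IsMultithreshold ![-1, 1, s] G ↔ IsMultithreshold ![-1, 1, t] G)) ∧
    (∀ s t : ℝ, 1 < s → 1 < t → t ≠ 3 → C t ⊆ C s → s = t) := by
  refine ⟨?_, fun s t hs ht h3 h => rigid hs ht h3 h⟩
  intro s t hs ht hne
  by_contra hcon
  push Not at hcon
  have heq : C s = C t := by
    ext ⟨n, G⟩
    exact hcon n G
  by_cases h3 : t = 3
  · have h3' : s ≠ 3 := fun h => hne (h.trans h3.symm)
    exact hne (rigid ht hs h3' heq.le).symm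
  · exact hne (rigid hs ht h3 heq.ge)

end Pool.Agent.Results.MP_86beeb_co.AllDistinct
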